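import Pool.Agent.Helper59_Flow.Defs

/-!
# Module FB of the squad MP_59a510_gt: flow boxes
-/

set_option autoImplicit false

open Set Topology Filter

namespace Pool.Agent.Helper59_Flow

variable {S : Set ℂ} {φ : ℝ → ℂ × ℂ → ℂ × ℂ} {q : ℂ × ℂ → Fin 3 → ℂ}

theorem isOpen_space (hS : IsClosed S) : IsOpen (space S) :=
  hS.isOpen_compl.preimage continuous_fst

/-- the flow as a function of two variables -/
def FF (φ : ℝ → ℂ × ℂ → ℂ × ℂ) (x : ℝ × (ℂ × ℂ)) : ℂ × ℂ := φ x.1 x.2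

theorem IsFlow.contDiffAt (hS : IsClosed S) (h : IsFlow S φ) {t : ℝ} {p : ℂ × ℂ}
    (hp : p ∈ space S) : ContDiffAt ℝ 1 (FF φ) (t, p) :=
  h.contDiffOn.contDiffAt ((isOpen_univ.prod (isOpen_space hS)).mem_nhds ⟨mem_univ _, hp⟩)

theorem IsFlow.hasStrict (hS : IsClosed S) (h : IsFlow S φ) {t : ℝ} {p : ℂ × ℂ}
    (hp : p ∈ space S) : HasStrictFDerivAt (FF φ) (fderiv ℝ (FF φ) (t, p)) (t, p) :=
  (h.contDiffAt hS hp).hasStrictFDerivAt one_ne_zero

/-- the velocity of the orbit of `p` at time `t` -/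
theorem IsFlow.hasDerivAt (hS : IsClosed S) (h : IsFlow S φ) {p : ℂ × ℂ}
    (hp : p ∈ space S) (t : ℝ) :
    HasDerivAt (fun s => φ s p) (fderiv ℝ (FF φ) (t, p) (1, 0)) t := by
  have h1 := (h.hasStrict hS hp (t := t)).hasFDerivAt
  have h2 : HasDerivAt (fun s : ℝ => (s, p)) ((1 : ℝ), (0 : ℂ × ℂ)) t :=
    (hasDerivAt_id t).prodMk (hasDerivAt_const t p)
  exact h1.comp_hasDerivAt t h2

theorem IsFlow.velocity (hS : IsClosed S) (h : IsFlow S φ) {p : ℂ × ℂ}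
    (hp : p ∈ space S) (t : ℝ) :
    fderiv ℝ (FF φ) (t, p) (1, 0) =
      fderiv ℝ (FF φ) (t, p) (0, fderiv ℝ (FF φ) (0, p) (1, 0)) := by
  have h1 : HasDerivAt (fun s => φ (t + s) p) (fderiv ℝ (FF φ) (t, p) (1, 0)) 0 := by
    have := h.hasDerivAt hS hp (t + 0)
    have h3 := HasDerivAt.comp_const_add t 0 this
    simpa using h3
  have h2 : HasDerivAt (fun s => FF φ (t, φ s p))
      (fderiv ℝ (FF φ) (t, p) (0, fderiv ℝ (FF φ) (0, p) (1, 0))) 0 := by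
    have h4 : HasFDerivAt (FF φ) (fderiv ℝ (FF φ) (t, p)) (t, φ 0 p) := by
      rw [h.zero p hp]
      exact (h.hasStrict hS hp (t := t)).hasFDerivAt
    have h5 : HasDerivAt (fun s : ℝ => (t, φ s p))
        ((0 : ℝ), fderiv ℝ (FF φ) (0, p) (1, 0)) 0 :=
      (hasDerivAt_const _ t).prodMk (h.hasDerivAt hS hp 0)
    exact h4.comp_hasDerivAt (0 : ℝ) h5
  have h6 : (fun s => φ (t + s) p) = fun s => FF φ (t, φ s p) := by
    ext1 s
    exact h.add t s p hp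
  rw [h6] at h1
  exact h1.unique h2

theorem IsFlow.velocity_ne (hS : IsClosed S) (h : IsFlow S φ) {p : ℂ × ℂ}
    (hp : p ∈ space S) (hne : ∃ t, φ t p ≠ p) : fderiv ℝ (FF φ) (0, p) (1, 0) ≠ 0 := by
  intro h0
  obtain ⟨t, ht⟩ := hne
  apply ht
  have h1 : ∀ s, HasDerivAt (fun s => φ s p) 0 s := by
    intro s
    have := h.hasDerivAt hS hp s
    rw [h.velocity hS hp s, h0] at this
    have e : (((0 : ℝ), (0 : ℂ × ℂ)) : ℝ × (ℂ × ℂ)) = 0 := rfl
    rwa [e, map_zero] at this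
  have h2 := is_const_of_deriv_eq_zero (fun s => (h1 s).differentiableAt)
    (fun s => (h1 s).deriv) t 0
  rw [h2, h.zero p hp]

theorem IsFlow.fderiv_snd (hS : IsClosed S) (h : IsFlow S φ) {p : ℂ × ℂ}
    (hp : p ∈ space S) (v : ℂ × ℂ) : fderiv ℝ (FF φ) (0, p) (0, v) = v := by
  have h1 := (h.hasStrict hS hp (t := 0)).hasFDerivAt
  have h2 : HasFDerivAt (fun x : ℂ × ℂ => ((0 : ℝ), x)) (ContinuousLinearMap.inr ℝ ℝ (ℂ × ℂ)) p :=
    (ContinuousLinearMap.inr ℝ ℝ (ℂ × ℂ)).hasFDerivAt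
  have h3 : HasFDerivAt (fun x : ℂ × ℂ => FF φ (0, x))
      ((fderiv ℝ (FF φ) (0, p)).comp (ContinuousLinearMap.inr ℝ ℝ (ℂ × ℂ))) p := h1.comp p h2
  have h4 : (fun x : ℂ × ℂ => FF φ (0, x)) =ᶠ[𝓝 p] fun x => x := by
    filter_upwards [(isOpen_space hS).mem_nhds hp] with x hx
    exact h.zero x hx
  have h5 := (h3.congr_of_eventuallyEq h4.symm).unique (hasFDerivAt_id p)
  have h6 := congrArg (fun L : (ℂ × ℂ) →L[ℝ] (ℂ × ℂ) => L v) h5
  simpa using h6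

theorem IsTorusQuotient.q_flow (h : IsFlow S φ) (hq : IsTorusQuotient S φ q) {p : ℂ × ℂ}
    (hp : p ∈ space S) (t : ℝ) : q (φ t p) = q p :=
  ((hq.fibre p hp (φ t p) (h.mem t p hp)).2 ⟨t, rfl⟩).symm

/-- the angle coordinates -/
noncomputable def ang (q : ℂ × ℂ → Fin 3 → ℂ) (p₀ p : ℂ × ℂ) (i : Fin 3) : ℝ :=
  (Complex.log (q p i / q p₀ i)).im / (2 * Real.pi)

theorem ang_self {p₀ : ℂ × ℂ} (hq : ∀ i, q p₀ i ≠ 0) : ang q p₀ p₀ = 0 := by
  ext i
  simp [ang, div_self (hq i)]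

theorem ang_exp {p₀ p : ℂ × ℂ} (h0 : ∀ i, ‖q p₀ i‖ = 1) (h1 : ∀ i, ‖q p i‖ = 1) (i : Fin 3) :
    q p i = q p₀ i * Complex.exp (2 * Real.pi * Complex.I * (ang q p₀ p i : ℝ)) := by
  have hn0 : q p₀ i ≠ 0 := by rw [← norm_ne_zero_iff, h0]; norm_num
  have hn1 : q p i ≠ 0 := by rw [← norm_ne_zero_iff, h1]; norm_num
  have hne : q p i / q p₀ i ≠ 0 := div_ne_zero hn1 hn0
  have h2 : 2 * Real.pi * Complex.I * (ang q p₀ p i : ℝ) = Complex.log (q p i / q p₀ i) := by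
    apply Complex.ext
    · have : (Complex.log (q p i / q p₀ i)).re = 0 := by
        rw [Complex.log_re, norm_div, h0, h1]; simp
      rw [this]
      simp
    · have hpi : (2 * Real.pi) ≠ 0 := by positivity
      simp only [ang, Complex.mul_im, Complex.mul_re, Complex.ofReal_re, Complex.ofReal_im,
        Complex.I_re, Complex.I_im, Complex.re_ofNat, Complex.im_ofNat]
      field_simp
      ring
  rw [h2, Complex.exp_log hne, mul_div_cancel₀ _ hn0]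

/-- the derivative of the angle coordinates -/
noncomputable def angD (q : ℂ × ℂ → Fin 3 → ℂ) (p₀ : ℂ × ℂ) : (ℂ × ℂ) →L[ℝ] R3 :=
  ContinuousLinearMap.pi fun i => (2 * Real.pi)⁻¹ • (Complex.imCLM.comp
    (((q p₀ i)⁻¹ • (ContinuousLinearMap.proj (R := ℝ) (φ := fun _ : Fin 3 => ℂ) i)).comp
      (fderiv ℝ q p₀)))

theorem hasStrict_log {p₀ : ℂ × ℂ} (hq : ∀ i, q p₀ i ≠ 0) (hc : ContDiffAt ℝ 1 q p₀)
    (i : Fin 3) : HasStrictFDerivAt (fun p => Complex.log (q p i / q p₀ i))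
      (((q p₀ i)⁻¹ • (ContinuousLinearMap.proj (R := ℝ) (φ := fun _ : Fin 3 => ℂ) i)).comp
      (fderiv ℝ q p₀)) p₀ := by
  have h1 : HasStrictFDerivAt q (fderiv ℝ q p₀) p₀ := hc.hasStrictFDerivAt one_ne_zero
  have h2 : HasStrictFDerivAt (fun p => q p i / q p₀ i)
      (((q p₀ i)⁻¹ • (ContinuousLinearMap.proj (R := ℝ) (φ := fun _ : Fin 3 => ℂ) i)).comp
        (fderiv ℝ q p₀)) p₀ := by
    have h3 := ((q p₀ i)⁻¹ •
      (ContinuousLinearMap.proj (R := ℝ) (φ := fun _ : Fin 3 => ℂ) i)).hasStrictFDerivAt.comp p₀ h1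
    refine h3.congr_of_eventuallyEq (Eventually.of_forall fun p => ?_)
    simp [div_eq_mul_inv, mul_comm]
  have h4 : HasStrictFDerivAt Complex.log
      ((ContinuousLinearMap.toSpanSingleton ℂ ((1 : ℂ)⁻¹)).restrictScalars ℝ) (q p₀ i / q p₀ i) := by
    rw [div_self (hq i)]
    exact (Complex.hasStrictDerivAt_log (by simp)).hasStrictFDerivAt.restrictScalars ℝ
  refine (h4.comp p₀ h2).congr_fderiv ?_
  apply ContinuousLinearMap.ext
  intro v
  simp

theorem hasStrict_ang {p₀ : ℂ × ℂ} (hq : ∀ i, q p₀ i ≠ 0) (hc : ContDiffAt ℝ 1 q p₀) :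
    HasStrictFDerivAt (ang q p₀) (angD q p₀) p₀ := by
  rw [hasStrictFDerivAt_pi']
  intro i
  have h1 := ((2 * Real.pi)⁻¹ • Complex.imCLM).hasStrictFDerivAt.comp p₀ (hasStrict_log hq hc i)
  refine (h1.congr_of_eventuallyEq (Eventually.of_forall fun p => ?_)).congr_fderiv ?_
  · simp [ang, div_eq_mul_inv, mul_comm]
  · ext v
    all_goals simp [angD]

theorem angD_ker (hS : IsClosed S) (hq : IsTorusQuotient S φ q) {p₀ : ℂ × ℂ} (hp : p₀ ∈ space S)
    (hc : ContDiffAt ℝ 1 q p₀) {v : ℂ × ℂ} (hv : angD q p₀ v = 0) : fderiv ℝ q p₀ v = 0 := by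
  have hn : ∀ p ∈ space S, ∀ i, ‖q p i‖ = 1 := fun p hp i => hq.mem p hp i
  have hq0 : ∀ i, q p₀ i ≠ 0 := fun i => by
    rw [← norm_ne_zero_iff, hn p₀ hp i]; norm_num
  ext i
  have h1 := (hasStrict_log hq0 hc i).hasFDerivAt
  have h2 : HasFDerivAt (fun p => (Complex.log (q p i / q p₀ i)).re)
      (Complex.reCLM.comp (((q p₀ i)⁻¹ • (ContinuousLinearMap.proj (R := ℝ)
        (φ := fun _ : Fin 3 => ℂ) i)).comp (fderiv ℝ q p₀))) p₀ :=
    Complex.reCLM.hasFDerivAt.comp p₀ h1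
  have h3 : (fun p => (Complex.log (q p i / q p₀ i)).re) =ᶠ[𝓝 p₀] fun _ => (0 : ℝ) := by
    filter_upwards [(isOpen_space hS).mem_nhds hp] with p hp'
    rw [Complex.log_re, norm_div, hn p hp' i, hn p₀ hp i]
    simp
  have h4 := (h2.congr_of_eventuallyEq h3.symm).unique (hasFDerivAt_const (0 : ℝ) p₀)
  have h5 := congrArg (fun L : (ℂ × ℂ) →L[ℝ] ℝ => L v) h4
  have h6 := congrFun hv i
  simp only [angD, ContinuousLinearMap.coe_pi', FunLike.coe_smul, Pi.smul_apply,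
    ContinuousLinearMap.coe_comp, Function.comp_apply, Complex.imCLM_apply, smul_eq_mul,
    Pi.zero_apply, ContinuousLinearMap.proj_apply] at h6
  simp only [FunLike.coe_smul, Pi.smul_apply,
    ContinuousLinearMap.coe_comp, Function.comp_apply, Complex.reCLM_apply, smul_eq_mul,
    ContinuousLinearMap.proj_apply, zero_apply] at h5
  have h7 : (2 * Real.pi)⁻¹ ≠ 0 := by positivity
  have h8 : ((q p₀ i)⁻¹ * (fderiv ℝ q p₀ v) i).im = 0 := by
    rcases mul_eq_zero.1 h6 with h | h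
    · exact absurd h h7
    · exact h
  have h9 : (q p₀ i)⁻¹ * (fderiv ℝ q p₀ v) i = 0 := Complex.ext h5 h8
  rcases mul_eq_zero.1 h9 with h | h
  · exact absurd h (inv_ne_zero (hq0 i))
  · simpa using h


theorem fb : FBStatement := by
  intro S φ q hS hφ hq p₀ hp₀ hne
  obtain ⟨hc, hrank⟩ := hq.smooth p₀ hp₀ hne
  have hn : ∀ p ∈ space S, ∀ i, ‖q p i‖ = 1 := fun p hp i => hq.mem p hp i
  have hq0 : ∀ i, q p₀ i ≠ 0 := fun i => by
    rw [← norm_ne_zero_iff, hn p₀ hp₀ i]; norm_num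
  set V₀ : ℂ × ℂ := fderiv ℝ (FF φ) (0, p₀) (1, 0) with hV₀
  have hV₀ne : V₀ ≠ 0 := hφ.velocity_ne hS hp₀ hne
  have hqd : HasStrictFDerivAt q (fderiv ℝ q p₀) p₀ := hc.hasStrictFDerivAt one_ne_zero
  -- the velocity is in the kernel of the derivative of `q`
  have hker : fderiv ℝ q p₀ V₀ = 0 := by
    have h1 : HasFDerivAt q (fderiv ℝ q p₀) (φ 0 p₀) := by
      rw [hφ.zero p₀ hp₀]; exact hqd.hasFDerivAt
    have h2 : HasDerivAt (fun s => q (φ s p₀)) (fderiv ℝ q p₀ V₀) 0 :=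
      h1.comp_hasDerivAt (0 : ℝ) (hφ.hasDerivAt hS hp₀ 0)
    have h3 : (fun s => q (φ s p₀)) = fun _ => q p₀ := by
      ext1 s
      exact hq.q_flow hφ hp₀ s
    rw [h3] at h2
    exact h2.unique (hasDerivAt_const (0 : ℝ) (q p₀))
  have hfE : Module.finrank ℝ (ℂ × ℂ) = 4 := by
    rw [Module.finrank_prod, Complex.finrank_real_complex]
  have hker1 : Module.finrank ℝ (LinearMap.ker (fderiv ℝ q p₀ : ℂ × ℂ →ₗ[ℝ] Fin 3 → ℂ)) = 1 := by
    have := LinearMap.finrank_range_add_finrank_ker (fderiv ℝ q p₀ : ℂ × ℂ →ₗ[ℝ] Fin 3 → ℂ)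
    omega
  have hspan : ∀ v, fderiv ℝ q p₀ v = 0 → ∃ c : ℝ, c • V₀ = v := by
    intro v hv
    have h1 := (finrank_eq_one_iff_of_nonzero'
      (⟨V₀, hker⟩ : LinearMap.ker (fderiv ℝ q p₀ : ℂ × ℂ →ₗ[ℝ] Fin 3 → ℂ))
      (fun h => hV₀ne (congrArg Subtype.val h))).1 hker1 ⟨v, hv⟩
    obtain ⟨c, hc⟩ := h1
    exact ⟨c, congrArg Subtype.val hc⟩
  have hangD : angD q p₀ V₀ = 0 := by
    ext i
    simp [angD, hker]
  obtain ⟨lam, hlam⟩ := SeparatingDual.exists_eq_one (R := ℝ) hV₀ne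
  -- first application of the inverse function theorem
  have hinj1 : Function.Injective (lam.prod (angD q p₀)) := by
    rw [injective_iff_map_eq_zero]
    intro v hv
    simp only [ContinuousLinearMap.prod_apply, Prod.mk_eq_zero] at hv
    obtain ⟨c, rfl⟩ := hspan v (angD_ker hS hq hp₀ hc hv.2)
    have := hv.1
    rw [map_smul, hlam, smul_eq_mul, mul_one] at this
    rw [this, zero_smul]
  have hfR : Module.finrank ℝ (ℝ × R3) = 4 := by
    rw [Module.finrank_prod, Module.finrank_self, Module.finrank_fin_fun]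
  let A : (ℂ × ℂ) ≃L[ℝ] (ℝ × R3) :=
    (LinearMap.linearEquivOfInjective (lam.prod (angD q p₀) : (ℂ × ℂ) →ₗ[ℝ] ℝ × R3) hinj1
      (by rw [hfE, hfR])).toContinuousLinearEquiv
  have hA : ∀ v, A v = (lam v, angD q p₀ v) := fun v => rfl
  have hAeq : (A : (ℂ × ℂ) →L[ℝ] ℝ × R3) = lam.prod (angD q p₀) := by
    ext v <;> rfl
  have hΨ : HasStrictFDerivAt (fun p => (lam (p - p₀), ang q p₀ p))
      (A : (ℂ × ℂ) →L[ℝ] ℝ × R3) p₀ := by
    rw [hAeq]
    have h1 : HasStrictFDerivAt (fun p : ℂ × ℂ => lam (p - p₀)) lam p₀ := by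
      have h2 := lam.hasStrictFDerivAt.comp p₀ ((hasStrictFDerivAt_id p₀).sub_const p₀)
      simpa using h2
    exact h1.prodMk (hasStrict_ang hq0 hc)
  set PH := hΨ.toOpenPartialHomeomorph (fun p => (lam (p - p₀), ang q p₀ p)) with hPH
  have hPHs : p₀ ∈ PH.source := hΨ.mem_toOpenPartialHomeomorph_source
  have hPHc : ∀ p, PH p = (lam (p - p₀), ang q p₀ p) := fun p => rfl
  have hPH0 : PH p₀ = (0, 0) := by
    rw [hPHc, sub_self, map_zero, ang_self hq0]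
  have hT0 : ((0 : ℝ), (0 : R3)) ∈ PH.target := by
    rw [← hPH0]; exact PH.map_source hPHs
  set σ : R3 → ℂ × ℂ := fun y => PH.symm (0, y) with hσ
  have hσ0 : σ 0 = p₀ := by
    change PH.symm (0, 0) = p₀
    rw [← hPH0]
    exact PH.left_inv hPHs
  have hsymm : HasStrictFDerivAt PH.symm (A.symm : ℝ × R3 →L[ℝ] ℂ × ℂ) ((0 : ℝ), (0 : R3)) := by
    have := hΨ.to_localInverse
    rw [HasStrictFDerivAt.localInverse_def] at this
    rw [← hPH0]
    exact this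
  have hσd : HasStrictFDerivAt σ ((A.symm : ℝ × R3 →L[ℝ] ℂ × ℂ).comp
      (ContinuousLinearMap.inr ℝ ℝ R3)) 0 := by
    have h1 : HasStrictFDerivAt PH.symm (A.symm : ℝ × R3 →L[ℝ] ℂ × ℂ)
        (ContinuousLinearMap.inr ℝ ℝ R3 0) := hsymm
    exact h1.comp (0 : R3) (ContinuousLinearMap.inr ℝ ℝ R3).hasStrictFDerivAt
  have hσang : ∀ y, ((0 : ℝ), y) ∈ PH.target → ang q p₀ (σ y) = y := by
    intro y hy
    have := PH.right_inv hy
    rw [hPHc] at this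
    exact congrArg Prod.snd this
  -- the good ball
  have hev : ∀ᶠ y in 𝓝 (0 : R3), ((0 : ℝ), y) ∈ PH.target ∧ σ y ∈ space S := by
    have h1 : ∀ᶠ y in 𝓝 (0 : R3), ((0 : ℝ), y) ∈ PH.target := by
      have hcont : Continuous fun y : R3 => ((0 : ℝ), y) := by fun_prop
      exact hcont.continuousAt.preimage_mem_nhds (PH.open_target.mem_nhds hT0)
    have h2 : ∀ᶠ y in 𝓝 (0 : R3), σ y ∈ space S := by
      apply hσd.continuousAt.preimage_mem_nhds
      rw [hσ0]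
      exact (isOpen_space hS).mem_nhds hp₀
    exact h1.and h2
  obtain ⟨ρ, hρ, hball⟩ := Metric.eventually_nhds_iff_ball.1 hev
  have hσcont : ContinuousOn σ (Metric.ball 0 ρ) := by
    have h1 : ContinuousOn (fun y : R3 => ((0 : ℝ), y)) (Metric.ball 0 ρ) := by fun_prop
    exact PH.continuousOn_symm.comp h1 fun y hy => (hball y hy).1
  have hσq : ∀ y ∈ Metric.ball (0 : R3) ρ, ∀ i,
      q (σ y) i = q p₀ i * Complex.exp (2 * Real.pi * Complex.I * y i) := by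
    intro y hy i
    have h1 := ang_exp (q := q) (hn p₀ hp₀) (hn (σ y) (hball y hy).2) i
    rwa [hσang y (hball y hy).1] at h1
  -- second application of the inverse function theorem
  have hFd : HasStrictFDerivAt (FF φ) (fderiv ℝ (FF φ) (0, p₀)) ((0 : ℝ), σ 0) := by
    rw [hσ0]; exact hφ.hasStrict hS hp₀
  set B : ℝ × R3 →L[ℝ] ℂ × ℂ := (fderiv ℝ (FF φ) (0, p₀)).comp
    ((ContinuousLinearMap.fst ℝ ℝ R3).prod (((A.symm : ℝ × R3 →L[ℝ] ℂ × ℂ).comp
      (ContinuousLinearMap.inr ℝ ℝ R3)).comp (ContinuousLinearMap.snd ℝ ℝ R3))) with hB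
  have hΦ : HasStrictFDerivAt (fun x : ℝ × R3 => φ x.1 (σ x.2)) B ((0 : ℝ), (0 : R3)) := by
    have h1 : HasStrictFDerivAt (fun x : ℝ × R3 => (x.1, σ x.2))
        ((ContinuousLinearMap.fst ℝ ℝ R3).prod (((A.symm : ℝ × R3 →L[ℝ] ℂ × ℂ).comp
      (ContinuousLinearMap.inr ℝ ℝ R3)).comp (ContinuousLinearMap.snd ℝ ℝ R3)))
        ((0 : ℝ), (0 : R3)) := by
      have h2 : HasStrictFDerivAt (fun x : ℝ × R3 => σ x.2)
          (((A.symm : ℝ × R3 →L[ℝ] ℂ × ℂ).comp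
      (ContinuousLinearMap.inr ℝ ℝ R3)).comp (ContinuousLinearMap.snd ℝ ℝ R3))
          ((0 : ℝ), (0 : R3)) := hσd.comp ((0 : ℝ), (0 : R3)) hasStrictFDerivAt_snd
      exact hasStrictFDerivAt_fst.prodMk h2
    exact hFd.comp ((0 : ℝ), (0 : R3)) h1
  have hBapply : ∀ s w, B (s, w) = s • V₀ + A.symm (0, w) := by
    intro s w
    have h1 : B (s, w) = fderiv ℝ (FF φ) (0, p₀) (s, A.symm (0, w)) := rfl
    have h2 : ((s, A.symm (0, w)) : ℝ × (ℂ × ℂ)) = s • ((1 : ℝ), (0 : ℂ × ℂ)) +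
        ((0 : ℝ), A.symm (0, w)) := by
      ext <;> simp
    rw [h1, h2, map_add, map_smul, hφ.fderiv_snd hS hp₀]
  have hinj2 : Function.Injective B := by
    rw [injective_iff_map_eq_zero]
    rintro ⟨s, w⟩ hsw
    rw [hBapply] at hsw
    have h1 : A (A.symm (0, w)) = (0, w) := A.apply_symm_apply _
    rw [hA] at h1
    have h2 := congrArg (angD q p₀) hsw
    rw [map_add, map_smul, hangD, smul_zero, zero_add, map_zero] at h2
    have hw : w = 0 := by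
      have h3 := congrArg Prod.snd h1
      simp only at h3
      rw [← h3, h2]
    subst hw
    have h4 : A.symm ((0 : ℝ), (0 : R3)) = 0 := map_zero A.symm
    rw [h4, add_zero] at hsw
    rcases smul_eq_zero.1 hsw with h | h
    · rw [h]; rfl
    · exact absurd h hV₀ne
  let A2 : (ℝ × R3) ≃L[ℝ] (ℂ × ℂ) :=
    (LinearMap.linearEquivOfInjective (B : (ℝ × R3) →ₗ[ℝ] ℂ × ℂ) hinj2
      (by rw [hfE, hfR])).toContinuousLinearEquiv
  have hA2 : (A2 : (ℝ × R3) →L[ℝ] ℂ × ℂ) = B := by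
    apply ContinuousLinearMap.ext
    intro v
    rfl
  rw [← hA2] at hΦ
  set P2 := hΦ.toOpenPartialHomeomorph (fun x : ℝ × R3 => φ x.1 (σ x.2)) with hP2
  have hP2s : ((0 : ℝ), (0 : R3)) ∈ P2.source := hΦ.mem_toOpenPartialHomeomorph_source
  have hP2c : ∀ x, P2 x = φ x.1 (σ x.2) := fun x => rfl
  have hP20 : P2 (0, 0) = p₀ := by
    rw [hP2c]
    change φ 0 (σ 0) = p₀
    rw [hσ0, hφ.zero p₀ hp₀]
  have hpT : p₀ ∈ P2.target := by
    have := P2.map_source hP2s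
    rwa [hP20] at this
  have hsy0 : P2.symm p₀ = (0, 0) := by
    have := P2.left_inv hP2s
    rwa [hP20] at this
  refine ⟨ρ, σ, fun p => (P2.symm p).1, fun p => (P2.symm p).2,
    {p | p ∈ P2.target ∧ (P2.symm p).2 ∈ Metric.ball (0 : R3) ρ ∧ p ∈ space S}, hρ, ?_,
    fun p hp => hp.2.2, hσcont, fun y hy => ⟨(hball y hy).2, hσq y hy⟩, ?_, ?_, ?_⟩
  · have h1 : ∀ᶠ p in 𝓝 p₀, p ∈ P2.target := P2.open_target.mem_nhds hpT
    have h2 : ∀ᶠ p in 𝓝 p₀, (P2.symm p).2 ∈ Metric.ball (0 : R3) ρ := by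
      have hct : ContinuousAt (fun p => (P2.symm p).2) p₀ :=
        continuousAt_snd.comp (P2.continuousAt_symm hpT)
      apply hct.preimage_mem_nhds
      rw [hsy0]
      exact Metric.ball_mem_nhds _ hρ
    have h3 : ∀ᶠ p in 𝓝 p₀, p ∈ space S := (isOpen_space hS).mem_nhds hp₀
    filter_upwards [h1, h2, h3] with p a b c
    exact ⟨a, b, c⟩
  · exact continuous_fst.comp_continuousOn (P2.continuousOn_symm.mono fun p hp => hp.1)
  · exact continuous_snd.comp_continuousOn (P2.continuousOn_symm.mono fun p hp => hp.1)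
  · intro p hp
    have h1 : φ (P2.symm p).1 (σ (P2.symm p).2) = p := P2.right_inv hp.1
    refine ⟨hp.2.1, fun i => ?_, h1⟩
    have h2 := hq.q_flow hφ (hball _ hp.2.1).2 (P2.symm p).1
    rw [h1] at h2
    rw [h2]
    exact hσq _ hp.2.1 i

end Pool.Agent.Helper59_Flow
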